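import Pool.Agent.KS6_73.LO.Family

/-!
# Stability of the nullity of the Lights Out grids

MP_222d4b_co, Q1: there are infinitely many `n` for which the `n × n` Lights Out grid has nullity
`d n = 2`. We prove that `d (N p - 1) = d (N - 1)` for prime factors `p` and for new primes `p` of
`N` under simple arithmetic conditions.
-/

set_option autoImplicit false

namespace Pool.Agent.Results.MP_222d4b_co.StableNullity

/-- Two cells of the `n × n` grid are adjacent when they differ by one in exactly one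
coordinate. -/
def Adjacent {n : ℕ} (c c' : Fin n × Fin n) : Prop :=
  (c.1 = c'.1 ∧ |(c.2.val : ℤ) - c'.2.val| = 1) ∨ (c.2 = c'.2 ∧ |(c.1.val : ℤ) - c'.1.val| = 1)

open Classical in
/-- The Lights Out matrix of the `n × n` grid over the field with two elements: the entry at
`(c, c')` is one exactly when `c = c'` or `c` and `c'` are adjacent. -/
noncomputable def lightsOut (n : ℕ) : Matrix (Fin n × Fin n) (Fin n × Fin n) (ZMod 2) :=
  fun c c' => if c = c' ∨ Adjacent c c' then 1 else 0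

/-- The nullity `d n` of the `n × n` grid: the dimension of the kernel of its matrix. -/
noncomputable def d (n : ℕ) : ℕ :=
  Module.finrank (ZMod 2) (LinearMap.ker (lightsOut n).mulVecLin)

/-- `p` is not a Wieferich prime. -/
def NotWieferich (p : ℕ) : Prop := ¬ p ^ 2 ∣ 2 ^ (p - 1) - 1

/-- Safe primes `p > 13`, i.e. primes `p = 2 h + 1` with a prime `h`, `p > 13`, which are not
Wieferich primes. -/
def SafePrime (p : ℕ) : Prop := p.Prime ∧ ((p - 1) / 2).Prime ∧ 13 < p ∧ NotWieferich p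

lemma d_eq (n : ℕ) : d n = Q167.LightsOut.nullity n := by
  have h : lightsOut n = Q167.LightsOut.gridMatrix n := by
    funext c c'
    unfold lightsOut Q167.LightsOut.gridMatrix
    simp only [Matrix.of_apply]
    congr 1
    apply propext
    have key : ∀ a b : Fin n, |(a.val : ℤ) - b.val| = 1 ↔
        ((a : ℕ) + 1 = b ∨ (b : ℕ) + 1 = a) := by
      intro a b
      rw [abs_eq (by norm_num)]
      omega
    unfold Adjacent Q167.LightsOut.Adjacent
    rw [key, key]
  unfold d Q167.LightsOut.nullity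
  rw [h]

lemma multi' (N m : ℕ) (hN : N ≠ 0) (hm : m ≠ 0)
    (h : ∀ p : ℕ, p.Prime → p ∣ m → p ≠ 2 ∧ p ∣ N ∧ NotWieferich p ∧
      ∀ q : ℕ, q.Prime → q ∣ N → ¬ p ∣ q - 1) : d (N * m - 1) = d (N - 1) := by
  obtain ⟨a, b, hb, rfl⟩ := Nat.exists_eq_two_pow_mul_odd hN
  rw [d_eq, d_eq]
  apply KS6_73.LO.multi a m b hb hm
  intro p hp hpm
  obtain ⟨h1, h2, h3, h4⟩ := h p hp hpm
  refine ⟨hp.odd_of_ne_two h1, ?_, h3, fun q hq hqb => h4 q hq (hqb.mul_left _)⟩
  rcases hp.dvd_mul.1 h2 with h5 | h5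
  · exact absurd ((Nat.prime_dvd_prime_iff_eq hp Nat.prime_two).1 (hp.dvd_of_dvd_pow h5)) h1
  · exact h5

open Classical in
/-- **Theorem.** Let `d n` be the nullity of the `n × n` Lights Out grid.

1. Let `p` be a prime factor of `b` such that `b ∣ 2 ^ e - 1` and `b p ∤ 2 ^ e - 1` for some `e`.
   Then `d (2 ^ a b p ^ k - 1) = d (2 ^ a b - 1)` for all `a` and `k`.
2. For all `N ≥ 1` and all odd primes `p` the sequence `d (N p ^ k - 1)`, `k = 0, 1, ...`, is
   finally constant.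
3. `d (N m - 1) = d (N - 1)` if every prime factor `p` of `m` is odd, divides `N`, is not a
   Wieferich prime, and does not divide `q - 1` for any prime factor `q` of `N`.
4. If the largest prime factor of `n + 1` is odd and is not a Wieferich prime, then the value
   `d n` is taken infinitely often.
5. (New primes.) Let `l ≡ 3 (mod 4)`, `l > 13`, be a prime that does not divide `b`, and let
   `b ∣ 2 ^ e - 1`. If `2 ^ e` has order `(l - 1) / 2` modulo `l`, then
   `d (2 ^ a b l - 1) = d (2 ^ a b - 1)`.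
6. `d (6 m - 1) = 2` for all `m ≥ 1` whose prime factors are `3` and safe primes `> 13` which are
   not Wieferich primes, no two of them being of the form `p`, `2 p + 1`.
7. There is `c > 0` such that for all `x ≥ 6` there are at least `c (log x) ^ 10` integers `n < x`
   with `d n = 2`. -/
theorem result :
    (∀ a b p e : ℕ, p.Prime → p ∣ b → b ∣ 2 ^ e - 1 → ¬ b * p ∣ 2 ^ e - 1 →
      ∀ k : ℕ, d (2 ^ a * b * p ^ k - 1) = d (2 ^ a * b - 1)) ∧
    (∀ N p : ℕ, N ≠ 0 → p.Prime → p ≠ 2 →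
      ∃ k₀, ∀ k, k₀ ≤ k → d (N * p ^ k - 1) = d (N * p ^ k₀ - 1)) ∧
    (∀ N m : ℕ, N ≠ 0 → m ≠ 0 →
      (∀ p : ℕ, p.Prime → p ∣ m → p ≠ 2 ∧ p ∣ N ∧ NotWieferich p ∧
        ∀ q : ℕ, q.Prime → q ∣ N → ¬ p ∣ q - 1) → d (N * m - 1) = d (N - 1)) ∧
    (∀ n p : ℕ, p.Prime → p ≠ 2 → p ∣ n + 1 → (∀ q : ℕ, q.Prime → q ∣ n + 1 → q ≤ p) →
      NotWieferich p → {n' : ℕ | d n' = d n}.Infinite) ∧
    (∀ a b l e : ℕ, b ≠ 0 → l.Prime → 13 < l → l % 4 = 3 → ¬ l ∣ b → b ∣ 2 ^ e - 1 →
      orderOf ((2 : ZMod l) ^ e) = (l - 1) / 2 → d (2 ^ a * b * l - 1) = d (2 ^ a * b - 1)) ∧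
    (∀ m : ℕ, m ≠ 0 → (∀ p : ℕ, p.Prime → p ∣ m → p = 3 ∨ SafePrime p) →
      (∀ p q : ℕ, p.Prime → q.Prime → p ∣ m → q ∣ m → q ≠ 2 * p + 1) → d (6 * m - 1) = 2) ∧
    (∃ c : ℝ, 0 < c ∧ ∀ x : ℕ, 6 ≤ x →
      c * Real.log x ^ 10 ≤ ((Finset.range x).filter fun n => d n = 2).card) := by
  refine ⟨?_, ?_, multi', ?_, ?_, ?_, ?_⟩
  · intro a b p e hp hpb h1 h2 k
    obtain ⟨u, hu1, hu2⟩ := KS6_73.LO.form_of_dvd h1 h2
    have he : e ≠ 0 := by
      rintro rfl
      apply h2
      simp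
    have hb0 : b ≠ 0 := by
      rintro rfl
      rw [zero_mul, add_zero] at hu1
      have := Nat.one_lt_two_pow he
      omega
    have hp2 : Odd p := by
      apply hp.odd_of_ne_two
      rintro rfl
      obtain ⟨c, rfl⟩ := hpb
      obtain ⟨f, rfl⟩ : ∃ f, e = f + 1 := ⟨e - 1, by omega⟩
      rw [pow_succ, mul_assoc] at hu1
      omega
    rw [d_eq, d_eq]
    exact KS6_73.LO.stable_pow a p hp hp2 k b u e hpb hb0 hu1 hu2
  · intro N p hN hp hp2
    obtain ⟨k₀, h⟩ := KS6_73.LO.eventually_const N p hN hp (hp.odd_of_ne_two hp2)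
    refine ⟨k₀, fun k hk => ?_⟩
    rw [d_eq, d_eq]
    exact h k hk
  · intro n p hp hp2 hpn hmax hw
    apply Set.infinite_of_injective_forall_mem (f := fun k : ℕ => (n + 1) * p ^ k - 1)
    · intro x y hxy
      simp only at hxy
      have h1 : 0 < (n + 1) * p ^ x := Nat.mul_pos (by omega) (pow_pos hp.pos _)
      have h2 : 0 < (n + 1) * p ^ y := Nat.mul_pos (by omega) (pow_pos hp.pos _)
      have h3 : (n + 1) * p ^ x = (n + 1) * p ^ y := by omega
      have h4 := Nat.eq_of_mul_eq_mul_left (by omega) h3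
      exact Nat.pow_right_injective hp.two_le h4
    · intro k
      change d ((n + 1) * p ^ k - 1) = d n
      have h5 := multi' (n + 1) (p ^ k) (by omega) (pow_ne_zero _ hp.ne_zero) (by
        intro r hr hrk
        have h6 : r = p := (Nat.prime_dvd_prime_iff_eq hr hp).1 (hr.dvd_of_dvd_pow hrk)
        subst h6
        refine ⟨hp2, hpn, hw, ?_⟩
        intro q hq hqn hrq
        have h7 := hmax q hq hqn
        have h8 := hq.two_le
        have h9 := Nat.le_of_dvd (by omega) hrq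
        omega)
      rw [h5]
      rfl
  · intro a b l e hb hl h13 h4 hlb hbe ho
    rw [d_eq, d_eq]
    exact KS6_73.LO.new_prime a b l e hb hl h13 h4 hlb hbe ho
  · intro m hm h1 h2
    rw [d_eq]
    apply KS6_73.LO.family m hm _ h2
    intro p hp hpm
    rcases h1 p hp hpm with h | h
    · left; exact h
    · right; exact ⟨⟨h.1, h.2.1, h.2.2.1⟩, h.2.2.2⟩
  · obtain ⟨c, hc, h⟩ := KS6_73.LO.count_log _ KS6_73.LO.admissible_nine
    refine ⟨c, hc, fun x hx => ?_⟩
    have h1 := h x hx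
    simp only [d_eq]
    exact h1

end Pool.Agent.Results.MP_222d4b_co.StableNullity
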